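import Pool.Agent.Y561.MT.Abs

/-!
# Incomplete maximal ring topologies: the finite index topology on an ideal

Stronger form of the starting result `NonCompleteMaximal` (existence, by Zorn's lemma, of one
incomplete maximal ring topology, on one ring of characteristic two).
-/

open Set Filter Topology

namespace Pool.Agent.Results.MP_4aedba_al.FiniteIndexTopology

open Pool.Agent.Y561.MT

/-- **Main theorem**.

(1) Let `k` be a finite field, `V` a countably infinite vector space over `k` and `R` any ring in
which `V` is embedded as a two-sided ideal (by `j`) in such a way that every linear operator on `V`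
is the left multiplication by an element of `R`.  Then the sets which contain `j(M)` for a
subspace `M` of finite index in `V` are the neighbourhoods of zero of a ring topology `τ` on `R`
which is maximal and not complete.  More strongly, among all additive group topologies on `R` with
continuous left multiplications: `τ` is the only non-discrete one finer than `τ`; all those which
are not discrete on the ideal are coarser than `τ`; and if the ideal is open in such a topology,
then it is discrete, or equal to `τ`, or every neighbourhood of zero contains the whole ideal.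

(2) For all `k`, `V` and every ring `S` the ring `Tri k V × S` satisfies the hypotheses on `R`,
where `Tri k V` is the ring of triangular matrices with an operator and a scalar on the diagonal
and a vector in the corner.

(3) For every infinite vector space `V` over a finite field the finite index topology on `Tri k V`
is not complete, and it is a maximal ring topology if and only if `V` is countable.

(4) In particular there are a ring and a maximal ring topology on it which is not complete. -/
theorem result :
    (∀ (k V R : Type) [Field k] [Finite k] [AddCommGroup V] [Module k V] [Infinite V]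
        [Countable V] [Ring R] (j : V →+ R), IsFullIdeal k j →
      ∃ τ : TopologicalSpace R,
        (∀ U : Set R, U ∈ @nhds R τ 0 ↔
          ∃ M : Submodule k V, Finite (V ⧸ M) ∧ ∀ v ∈ M, j v ∈ U) ∧
        IsMaximalRingTopology τ ∧ ¬ IsCompleteRingTopology τ ∧
        (∀ t : TopologicalSpace R, IsLeftTopology t → t ≤ τ → t ≠ ⊥ → t = τ) ∧
        (∀ t : TopologicalSpace R, IsLeftTopology t →
          (∃ U ∈ @nhds R t 0, ∀ v : V, j v ∈ U → v = 0) ∨ τ ≤ t) ∧
        (∀ t : TopologicalSpace R, IsLeftTopology t → Set.range j ∈ @nhds R t 0 →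
          t = ⊥ ∨ t = τ ∨ ∀ U ∈ @nhds R t 0, Set.range j ⊆ U)) ∧
    (∀ (k V S : Type) [Field k] [AddCommGroup V] [Module k V] [Ring S],
      IsFullIdeal k ((AddMonoidHom.inl (Tri k V) S).comp (Tri.incHom : V →+ Tri k V))) ∧
    (∀ (k V : Type) [Field k] [Finite k] [AddCommGroup V] [Module k V] [Infinite V],
      ¬ IsCompleteRingTopology (finiteIndexTopology k V) ∧
      (IsMaximalRingTopology (finiteIndexTopology k V) ↔ Countable V)) ∧
    ∃ (R : Type) (_ : Ring R) (t : TopologicalSpace R),
      IsMaximalRingTopology t ∧ ¬ IsCompleteRingTopology t := by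
  have h1 : ∀ (k V R : Type) [Field k] [Finite k] [AddCommGroup V] [Module k V] [Infinite V]
        [Countable V] [Ring R] (j : V →+ R), IsFullIdeal k j →
      ∃ τ : TopologicalSpace R,
        (∀ U : Set R, U ∈ @nhds R τ 0 ↔
          ∃ M : Submodule k V, Finite (V ⧸ M) ∧ ∀ v ∈ M, j v ∈ U) ∧
        IsMaximalRingTopology τ ∧ ¬ IsCompleteRingTopology τ ∧
        (∀ t : TopologicalSpace R, IsLeftTopology t → t ≤ τ → t ≠ ⊥ → t = τ) ∧
        (∀ t : TopologicalSpace R, IsLeftTopology t →
          (∃ U ∈ @nhds R t 0, ∀ v : V, j v ∈ U → v = 0) ∨ τ ≤ t) ∧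
        (∀ t : TopologicalSpace R, IsLeftTopology t → Set.range j ∈ @nhds R t 0 →
          t = ⊥ ∨ t = τ ∨ ∀ U ∈ @nhds R t 0, Set.range j ⊆ U) := by
    intro k V R _ _ _ _ _ _ _ j h
    obtain ⟨b⟩ := exists_basis (k := k) (V := V)
    obtain ⟨τ, hτ, hn⟩ := h.exists_topology b
    refine ⟨τ, hn, ⟨hτ, t2_gen τ h hτ hn, ne_bot_gen τ h hn, ?_⟩, not_complete_gen τ h hτ hn, ?_, ?_, ?_⟩
    · intro s hs _ hsd hle
      exact maximal_gen h b τ hτ hn s hs.isLeftTopology hsd hle
    · intro t ht hle hd
      exact maximal_gen h b τ hτ hn t ht hd hle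
    · intro t ht
      exact dichotomy_gen h b τ hτ hn t ht
    · intro t ht hB
      exact trichotomy_gen h b τ hτ hn t ht hB
  refine ⟨h1, ?_, ?_, ?_⟩
  · intro k V S _ _ _ _
    exact isFullIdeal_prod isFullIdeal_tri
  · intro k V _ _ _ _ _
    refine ⟨not_complete, fun h => ?_, fun h => maximal_of_countable⟩
    by_contra hV
    exact not_maximal_of_uncountable hV h
  · have : Infinite (ℕ →₀ ZMod 2) :=
      Infinite.of_injective (fun n : ℕ => Finsupp.single n (1 : ZMod 2))
        (Finsupp.single_left_injective one_ne_zero)
    have : Fact (Nat.Prime 2) := ⟨Nat.prime_two⟩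
    obtain ⟨τ, -, hm, hc, -⟩ := h1 (ZMod 2) (ℕ →₀ ZMod 2) (Tri (ZMod 2) (ℕ →₀ ZMod 2))
      Tri.incHom isFullIdeal_tri
    exact ⟨Tri (ZMod 2) (ℕ →₀ ZMod 2), inferInstance, τ, hm, hc⟩

end Pool.Agent.Results.MP_4aedba_al.FiniteIndexTopology
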